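import Pool.Agent.H55.CSel

open Set Filter Topology Pool.Agent.H55.CSel

namespace Pool.Agent.Results.MP_f865b7_gt.FrechetStrong

universe u

theorem result (X : Type u) [TopologicalSpace X] [T1Space X] [FrechetUrysohnSpace X]
    (h : CSelective X) : StronglyCSelective X := by
  classical
  intro Y _ _ _ _ φ hl hne
  have hE : ∀ (y : Y) (x : X), ∃ E : Set X, E.Countable ∧ (x ∈ φ y → ∀ U, IsOpen U → x ∈ U →
      ∀ᶠ y' in 𝓝 y, (φ y' ∩ E ∩ U).Nonempty) := by
    intro y x
    by_cases hx : x ∈ φ y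
    swap
    · exact ⟨∅, countable_empty, fun h' => absurd h' hx⟩
    obtain ⟨g, hg, hg'⟩ := h Y (fun y' => if y' = y then {x} else closure (φ y')) (by
      intro U hU
      have e : ∀ y', (closure (φ y') ∩ U).Nonempty ↔ (φ y' ∩ U).Nonempty := fun y' =>
        ⟨fun ⟨z, h1, h2⟩ => by
          obtain ⟨w, h3, h4⟩ := mem_closure_iff.1 h1 U hU h2
          exact ⟨w, h4, h3⟩, fun ⟨z, h1, h2⟩ => ⟨z, subset_closure h1, h2⟩⟩
      by_cases hxU : x ∈ U
      · have e2 : {y' | ((if y' = y then {x} else closure (φ y')) ∩ U).Nonempty} =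
            {y' | (φ y' ∩ U).Nonempty} := by
          ext y'
          by_cases hy : y' = y
          · subst hy
            simp only [mem_ofPred_eq, if_true]
            exact ⟨fun _ => ⟨x, hx, hxU⟩, fun _ => ⟨x, rfl, hxU⟩⟩
          · simp only [mem_ofPred_eq, if_neg hy, e]
        rw [e2]
        exact hl U hU
      · have e2 : {y' | ((if y' = y then {x} else closure (φ y')) ∩ U).Nonempty} =
            {y' | (φ y' ∩ U).Nonempty} ∩ {y}ᶜ := by
          ext y'
          by_cases hy : y' = y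
          · subst hy
            simp only [mem_ofPred_eq, if_true]
            exact ⟨fun ⟨z, h1, h2⟩ => absurd (h1 ▸ h2) hxU, fun h1 => absurd rfl h1.2⟩
          · simp only [mem_ofPred_eq, if_neg hy, e]
            exact ⟨fun h1 => ⟨h1, hy⟩, fun h1 => h1.1⟩
        rw [e2]
        exact (hl U hU).inter isOpen_compl_singleton) (by
      intro y'
      by_cases hy : y' = y
      · simp only [if_pos hy]
        exact ⟨singleton_nonempty x, isClosed_singleton⟩
      · simp only [if_neg hy]
        exact ⟨(hne y').closure, isClosed_closure⟩)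
    have hgy : g y = x := by simpa using hg' y
    have hcl : ∀ y', g y' ∈ closure (φ y') := by
      intro y'
      by_cases hy : y' = y
      · rw [hy, hgy]
        exact subset_closure hx
      · simpa [hy] using hg' y'
    choose a ha ha' using fun y' => mem_closure_iff_seq_limit.1 (hcl y')
    refine ⟨range (fun p : Y × ℕ => a p.1 p.2), countable_range _, fun _ U hU hxU => ?_⟩
    filter_upwards [(hU.preimage hg).mem_nhds (show g y ∈ U from hgy ▸ hxU)] with y' hy'
    obtain ⟨n, hn⟩ := ((ha' y').eventually (hU.mem_nhds hy')).exists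
    exact ⟨a y' n, ⟨ha y' n, (y', n), rfl⟩, hn⟩
  choose E hE1 hE2 using hE
  choose x0 hx0 using hne
  let D : ℕ → Set X := fun n => Nat.rec (range x0) (fun _ S => ⋃ y, ⋃ x ∈ S, E y x) n
  have hD : ∀ n, (D n).Countable := fun n => by
    induction n with
    | zero => exact countable_range _
    | succ n ih => exact countable_iUnion fun y => ih.biUnion fun x _ => hE1 y x
  have hDc : (⋃ n, D n).Countable := countable_iUnion hD
  obtain ⟨f, hf, hf'⟩ := michael (φ := fun y => φ y ∩ ⋃ n, D n) (by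
      intro U hU
      refine isOpen_iff_mem_nhds.2 fun y ⟨x, ⟨h1, h2⟩, h3⟩ => ?_
      obtain ⟨n, hn⟩ := mem_iUnion.1 h2
      filter_upwards [hE2 y x h1 U hU h3] with y' ⟨z, ⟨h4, h5⟩, h6⟩
      exact ⟨z, ⟨h4, mem_iUnion.2 ⟨n + 1, mem_iUnion.2 ⟨y, mem_biUnion hn h5⟩⟩⟩, h6⟩)
    (fun y => ⟨x0 y, hx0 y, mem_iUnion.2 ⟨0, mem_range_self y⟩⟩) (D := ⋃ n, D n)
    (fun y => inter_subset_right) (fun x _ => fc_of_csel h hDc x)
  exact ⟨f, hf, fun y => (hf' y).1⟩

end Pool.Agent.Results.MP_f865b7_gt.FrechetStrong
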